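import Pool.Agent.H287R3.LR.Quasi

set_option autoImplicit false

namespace Pool.Agent.Results.MP_e5d384_lc.PerfectProductSymmetry

open Pool.Agent.H630R2.LR

/-- **Log-rank conjecture for Boolean matrices invariant under a product of quasirandom groups.**
Let `G i` (`i ∈ I`, `I` any finite index set) be finite perfect groups and let `κ ≥ 0`, `s` be such
that every nontrivial complex matrix representation of some `G i` has degree `d` with
`log₂ |G i| ≤ κ (log₂ d)^s`. Let the direct product `∏ G i` act on the finite sets `X` and `Y`, with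
at most `t` orbits on each, and let `F : X × Y → {0,1}` be invariant. Then `F` has a deterministic
two-party protocol with at most `2 (κ (log₂ r)^s + 1) (log₂ r)^4 + 2 (log₂ t + 1)` bits, where `r`
is the real rank of the matrix of `F`. There is no dependence on the number of factors.
(For perfect groups of order at most `q` one can take `s = 0`, `κ = log₂ q`. Protocols as in the
frozen statement S15531.) -/
theorem result (I : Type) [Fintype I] (G : I → Type) [∀ i, Group (G i)] [∀ i, Fintype (G i)]
    (hperf : ∀ i, commutator (G i) = ⊤) (κ : ℝ) (hκ : 0 ≤ κ) (s : ℕ)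
    (hrep : ∀ (i : I) (d : ℕ) (ρ : G i →* Matrix.GeneralLinearGroup (Fin d) ℂ), ρ ≠ 1 →
      Real.logb 2 (Nat.card (G i)) ≤ κ * (Real.logb 2 d) ^ s)
    (t : ℕ) (X Y : Type) [Fintype X] [Fintype Y]
    [MulAction (∀ i, G i) X] [MulAction (∀ i, G i) Y] (F : X → Y → Bool)
    (hF : ∀ (g : ∀ i, G i) (x : X) (y : Y), F (g • x) (g • y) = F x y)
    (hX : Nat.card (MulAction.orbitRel.Quotient (∀ i, G i) X) ≤ t)
    (hY : Nat.card (MulAction.orbitRel.Quotient (∀ i, G i) Y) ≤ t) :
    ∃ (c : ℕ) (owner : List Bool → Bool) (a : List Bool → X → Bool) (b : List Bool → Y → Bool)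
      (out : List Bool → Bool),
      (∀ x y, out (Nat.iterate
        (fun t : List Bool => t ++ [if owner t then a t x else b t y]) c []) = F x y) ∧
      (c : ℝ) ≤ 2 * (κ * (Real.logb 2
            ((Matrix.of (fun (x : X) (y : Y) => if F x y then (1 : ℝ) else 0)).rank : ℝ)) ^ s + 1) *
          (Real.logb 2
            ((Matrix.of (fun (x : X) (y : Y) => if F x y then (1 : ℝ) else 0)).rank : ℝ)) ^ 4
        + 2 * (Real.logb 2 t + 1) := by
  classical
  obtain ⟨c, ⟨owner, a, b, out, h⟩, hc⟩ :=
    Pool.Agent.H287R3.LR.final_quasi hperf κ hκ s hrep F hF t hX hY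
  exact ⟨c, owner, a, b, out, h, hc⟩

end Pool.Agent.Results.MP_e5d384_lc.PerfectProductSymmetry
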