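import Pool.Agent.H287R3.LR.Fin

set_option autoImplicit false

namespace Pool.Agent.Results.MP_e5d384_lc.SymmetricGroupSymmetry

open Pool.Agent.H630R2.LR

/-- **Log-rank conjecture for Boolean matrices with symmetric-group symmetry.**
Let the symmetric group `S_n` (`n` arbitrary) act on the finite sets `X` and `Y`, with at most `t`
orbits on each of them, and let `F : X × Y → {0,1}` be invariant: `F(gx, gy) = F(x, y)` for all
`g ∈ S_n`. Then `F` has a deterministic two-party protocol with at most
`1347 (log₂ r + 1)^9 + 2 (log₂ t + 1)` bits, where `r` is the real rank of the communication matrix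
of `F`; there is no dependence on `n`. (Protocols as in the frozen statement S15531: `t` is the
transcript so far, `owner t` says who speaks, exactly `c` bits are exchanged, and the answer is a
function of the transcript.)

In particular (`X = Y = S_n`, one orbit) the log-rank conjecture holds for all functions
`F(σ, τ) = f(σ⁻¹τ)` on the symmetric group. -/
theorem result (n t : ℕ) (X Y : Type) [Fintype X] [Fintype Y]
    [MulAction (Equiv.Perm (Fin n)) X] [MulAction (Equiv.Perm (Fin n)) Y] (F : X → Y → Bool)
    (hF : ∀ (g : Equiv.Perm (Fin n)) (x : X) (y : Y), F (g • x) (g • y) = F x y)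
    (hX : Nat.card (MulAction.orbitRel.Quotient (Equiv.Perm (Fin n)) X) ≤ t)
    (hY : Nat.card (MulAction.orbitRel.Quotient (Equiv.Perm (Fin n)) Y) ≤ t) :
    ∃ (c : ℕ) (owner : List Bool → Bool) (a : List Bool → X → Bool) (b : List Bool → Y → Bool)
      (out : List Bool → Bool),
      (∀ x y, out (Nat.iterate
        (fun t : List Bool => t ++ [if owner t then a t x else b t y]) c []) = F x y) ∧
      (c : ℝ) ≤ 1347 * (Real.logb 2
          ((Matrix.of (fun (x : X) (y : Y) => if F x y then (1 : ℝ) else 0)).rank : ℝ) + 1) ^ 9
        + 2 * (Real.logb 2 t + 1) := by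
  obtain ⟨c, ⟨owner, a, b, out, h⟩, hc⟩ := Pool.Agent.H287R3.LR.final_sym n F hF t hX hY
  exact ⟨c, owner, a, b, out, h, hc⟩

end Pool.Agent.Results.MP_e5d384_lc.SymmetricGroupSymmetry
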